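import Pool.Agent.StochConv.Final

/-!
# A stochastic convolution in a Hilbert space without continuous version

The definitions used in the statement (`TwoSmooth`, `C0Semigroup`, `IsBrownianMotionOn`,
`timeMeasure`, `IsStochConvolution`, `HasContinuousVersion`) are in
`Pool/Agent/StochConv/Defs.lean`.
-/

open MeasureTheory ProbabilityTheory
open scoped NNReal

namespace Pool.Agent.Results.MP_f3f192_pr.NoContinuousVersion

open Pool.Agent.StochConv

/-- There are a real Hilbert space `X` (in particular a 2-smooth Banach space) and a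
`C₀`-semigroup `S` on `X` such that for every `T > 0`, every probability space with a filtration
`𝓕` and every standard real `𝓕`-Brownian motion `W` on `[0,T]` there is a progressively measurable
`g ∈ L²([0,T] × Ω; X)` whose stochastic convolution `u(t) = ∫₀ᵗ S(t-s) g_s dW_s`, `t ∈ [0,T]`, is
defined and has no continuous version. -/
theorem result :
    ∃ (X : Type) (_ : NormedAddCommGroup X) (_ : InnerProductSpace ℝ X) (_ : CompleteSpace X)
      (S : C0Semigroup X), TwoSmooth X ∧
      ∀ (T : ℝ≥0), 0 < T →
      ∀ {Ω : Type*} [mΩ : MeasurableSpace Ω] (𝓕 : Filtration ℝ≥0 mΩ) (W : ℝ≥0 → Ω → ℝ)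
        (P : Measure Ω), IsBrownianMotionOn 𝓕 W P T →
      ∃ g : ℝ≥0 → Ω → X, IsStronglyProgressive 𝓕 g ∧
        MemLp (fun p : ℝ≥0 × Ω => g p.1 p.2) 2 ((timeMeasure.restrict (Set.Iic T)).prod P) ∧
        (∃ u, IsStochConvolution 𝓕 W P S T g u) ∧
        ∀ u, IsStochConvolution 𝓕 W P S T g u → ¬ HasContinuousVersion P T u :=
  exists_no_continuous_version

end Pool.Agent.Results.MP_f3f192_pr.NoContinuousVersion
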